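import Pool.Agent.Lib.MP_9c4f7e_nt.CC.Fin

/-!
# Upper bounds for the number of primitive cycles of the maps `T_k`

`T k x` is `(3x+k)/2` for odd `x` and `x/2` for even `x`; `IsPrimitiveCycle k L S` (Lib/MP_9c4f7e_nt/CC/Cyc.lean): `S` is the set of the
`L` distinct elements of an integer cycle of `T_k` of period `L`, one of them coprime to `k`. Numbers of cycles are bounded as the numbers of
elements of finite sets `F` of cycles.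
-/

set_option autoImplicit false

open Finset

namespace Pool.Agent.Results.MP_9c4f7e_nt.CycleCounts

open Pool.Agent.Lib.MP_9c4f7e_nt.CC

private theorem odd_of {k : ℕ} (hk : k.Coprime 6) : (k : ℤ) % 2 = 1 := by
  have h1 : k.Coprime 2 := Nat.Coprime.coprime_dvd_right (by norm_num) hk
  have h2 : Odd k := Nat.coprime_two_right.1 h1
  obtain ⟨m, hm⟩ := h2
  omega

open Classical in
/-- Upper bounds for the number of primitive cycles of `T_k`: (1) those of period at least `Y` which meet `[-X, X]` or have period at most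
`k^c`; (2) those of period at most `log_2 k + h`; (3) `k / p^(1/4)` in place of `k / (Y + log k)` in (1) if a prime `p` outside a fixed
thin set `E` divides `k`. -/
theorem result :
    ∃ c C : ℝ, 0 < c ∧ 0 < C ∧
      (∀ k : ℕ, 2 ≤ k → k.Coprime 6 → ∀ X Y : ℝ, 1 ≤ X → 1 ≤ Y → ∀ F : Finset (Finset ℤ),
        (∀ S ∈ F, ∃ L : ℕ, Y ≤ L ∧ IsPrimitiveCycle k L S ∧ ((∃ x ∈ S, |(x : ℝ)| ≤ X) ∨ (L : ℝ) ≤ (k : ℝ) ^ c)) →
          (F.card : ℝ) ≤ C * (k / (Y + Real.log k) + (k : ℝ) ^ (39 / 40 : ℝ) + X ^ (19 / 20 : ℝ))) ∧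
      (∀ h : ℝ, ∃ D : ℝ, ∀ k : ℕ, 2 ≤ k → k.Coprime 6 → ∀ F : Finset (Finset ℤ),
        (∀ S ∈ F, ∃ L : ℕ, (L : ℝ) ≤ Real.logb 2 k + h ∧ IsPrimitiveCycle k L S) →
          (F.card : ℝ) ≤ D * (k / (Real.log k) ^ (3 / 2 : ℝ))) ∧
      ∃ E : Set ℕ, (∀ N : ℕ, (((range (N + 1)).filter (· ∈ E)).card : ℝ) ≤ 4 * (N : ℝ) ^ (3 / 4 : ℝ)) ∧
        ∀ k : ℕ, 2 ≤ k → k.Coprime 6 → ∀ p : ℕ, p.Prime → p ∣ k → p ∉ E → ∀ X : ℝ, 1 ≤ X → ∀ F : Finset (Finset ℤ),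
          (∀ S ∈ F, ∃ L : ℕ, IsPrimitiveCycle k L S ∧ ((∃ x ∈ S, |(x : ℝ)| ≤ X) ∨ (L : ℝ) ≤ (k : ℝ) ^ c)) →
            (F.card : ℝ) ≤ C * (k / (p : ℝ) ^ (1 / 4 : ℝ) + (k : ℝ) ^ (39 / 40 : ℝ) + X ^ (19 / 20 : ℝ)) := by
  obtain ⟨C1, hC1, h1⟩ := big
  obtain ⟨c, C2, hc, hC2, h2⟩ := mid
  obtain ⟨C, hC⟩ : ∃ C : ℝ, C = C1 + C2 := ⟨_, rfl⟩
  have hC0 : 0 < C := by rw [hC]; exact add_pos hC1 hC2
  have hcast : ∀ k : ℕ, (((k : ℕ) : ℤ) : ℝ) = (k : ℝ) := fun k => Int.cast_natCast k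
  have hlog : ∀ k : ℕ, 2 ≤ k → 0 < Real.log (k : ℝ) := fun k hk => Real.log_pos (by exact_mod_cast hk)
  have main : ∀ k : ℕ, 2 ≤ k → k.Coprime 6 → ∀ X Y : ℝ, 1 ≤ X → 1 ≤ Y → ∀ F : Finset (Finset ℤ),
        (∀ S ∈ F, ∃ L : ℕ, Y ≤ L ∧ IsPrimitiveCycle k L S ∧ ((∃ x ∈ S, |(x : ℝ)| ≤ X) ∨ (L : ℝ) ≤ (k : ℝ) ^ c)) →
          (F.card : ℝ) ≤ C * (k / (Y + Real.log k) + (k : ℝ) ^ (39 / 40 : ℝ) + X ^ (19 / 20 : ℝ)) := by
    intro k hk2 hk X Y hX hY F hF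
    have hl := hlog k hk2
    have h3 := h1 k (odd_of hk) (by exact_mod_cast hk2) X Y hX hY (F.filter fun S : Finset ℤ => ∃ x ∈ S, |((x : ℤ) : ℝ)| ≤ X) (fun S hS => by
      obtain ⟨hSF, hx⟩ := mem_filter.1 hS
      obtain ⟨L, hYL, hL, -⟩ := hF S hSF
      exact ⟨⟨L, hYL, hL⟩, hx⟩)
    have h4 := h2 k (odd_of hk) (by exact_mod_cast hk2) Y hY (F.filter fun S : Finset ℤ => ¬ ∃ x ∈ S, |((x : ℤ) : ℝ)| ≤ X) (fun S hS => by
      obtain ⟨hSF, hx⟩ := mem_filter.1 hS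
      obtain ⟨L, hYL, hL, h5⟩ := hF S hSF
      refine ⟨L, hYL, ?_, hL⟩
      rw [hcast]
      exact h5.resolve_left hx)
    rw [hcast] at h3 h4
    have h5 : (F.card : ℝ) = ((F.filter fun S : Finset ℤ => ∃ x ∈ S, |((x : ℤ) : ℝ)| ≤ X).card : ℝ) + ((F.filter fun S : Finset ℤ => ¬ ∃ x ∈ S, |((x : ℤ) : ℝ)| ≤ X).card : ℝ) := by
      rw [← Nat.cast_add, card_filter_add_card_filter_not]
    have h6 : (k : ℝ) / (Y + Real.log k) + (k : ℝ) ^ (39 / 40 : ℝ) ≤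
        (k : ℝ) / (Y + Real.log k) + (k : ℝ) ^ (39 / 40 : ℝ) + X ^ (19 / 20 : ℝ) := by
      have : 0 ≤ X ^ (19 / 20 : ℝ) := Real.rpow_nonneg (by linarith) _
      linarith
    have h7 := mul_le_mul_of_nonneg_left h6 hC2.le
    rw [h5, hC, add_mul]
    linarith
  refine ⟨c, C, hc, hC0, main, fun h => ?_, Exc, exc_card, fun k hk2 hk p hp hpk hE X hX F hF => ?_⟩
  · obtain ⟨D, -, h3⟩ := three h
    refine ⟨D, fun k hk2 hk F hF => ?_⟩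
    have h4 := h3 k (odd_of hk) (by exact_mod_cast hk2) F (by simpa only [hcast] using hF)
    rwa [hcast] at h4
  · have hpk' : (p : ℤ) ∣ (k : ℤ) := by exact_mod_cast hpk
    have hper : ∀ (L : ℕ) (S : Finset ℤ), IsPrimitiveCycle k L S → (p : ℝ) ^ (1 / 4 : ℝ) ≤ L := fun L S hS =>
      exc_period (odd_of hk) hp hpk' hE hS
    have hp1 : (1 : ℝ) ≤ p := by exact_mod_cast hp.one_lt.le
    have hY : (1 : ℝ) ≤ (p : ℝ) ^ (1 / 4 : ℝ) := Real.one_le_rpow hp1 (by norm_num)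
    have hl := hlog k hk2
    have h5 : (k : ℝ) / ((p : ℝ) ^ (1 / 4 : ℝ) + Real.log k) ≤ k / (p : ℝ) ^ (1 / 4 : ℝ) :=
      div_le_div_of_nonneg_left (Nat.cast_nonneg _) (by linarith) (by linarith)
    have h6 := main k hk2 hk X ((p : ℝ) ^ (1 / 4 : ℝ)) hX hY F (fun S hS => by
      obtain ⟨L, hL, h7⟩ := hF S hS
      exact ⟨L, hper L S hL, hL, h7⟩)
    refine h6.trans (mul_le_mul_of_nonneg_left ?_ hC0.le)
    linarith

end Pool.Agent.Results.MP_9c4f7e_nt.CycleCounts
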