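import Mathlib

set_option autoImplicit false

/-!
# Infinitely many `k` with at least `k / (8 (log k)^{3/2})` primitive cycles of period
at most `1 + log₂ k`
-/

namespace Pool.Agent.Results.MP_9c4f7e_nt.ManyShortCycles

/-- The map `T_k`: `x ↦ (3x+k)/2` for odd `x` and `x ↦ x/2` for even `x`. -/
def T (k : ℤ) (x : ℤ) : ℤ := if x % 2 = 1 then (3 * x + k) / 2 else x / 2

/-- `C` is (the set of elements of) a primitive integer cycle of `T_k` of period `L`. -/
def IsPrimitiveCycle (k : ℤ) (L : ℕ) (C : Finset ℤ) : Prop :=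
  ∃ x : ℕ → ℤ, 0 < L ∧ (∀ i < L, ∀ j < L, x i = x j → i = j) ∧
    (∀ i, i + 1 < L → T k (x i) = x (i + 1)) ∧ T k (x (L - 1)) = x 0 ∧
    C = (Finset.range L).image x ∧ Int.gcd (x 0) k = 1

/-! ## Parity vectors -/

/-- The numerator attached to a parity vector. -/
def N : List Bool → ℕ
  | [] => 0
  | b :: v => (if b then 3 ^ (v.count true) else 0) + 2 * N v

lemma N_append (w u : List Bool) :
    N (w ++ u) = 3 ^ (u.count true) * N w + 2 ^ w.length * N u := by
  induction w with
  | nil => simp [N]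
  | cons b w ih =>
    cases b
    · simp only [List.cons_append, N, ih, List.length_cons]
      simp
      ring
    · simp only [List.cons_append, N, ih, List.length_cons, List.count_append]
      simp
      ring

lemma N_lt (v : List Bool) : N v < 3 ^ v.length := by
  induction v with
  | nil => simp [N]
  | cons b v ih =>
    have hc : 3 ^ (v.count true) ≤ 3 ^ v.length :=
      Nat.pow_le_pow_right (by norm_num) List.count_le_length
    simp only [N, List.length_cons, pow_succ]
    cases b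
    · simp; omega
    · simp; omega

lemma N_inj : ∀ v w : List Bool, v.length = w.length → v.count true = w.count true →
    N v = N w → v = w := by
  intro v
  induction v with
  | nil =>
    intro w hl _ _
    simp at hl
    exact (List.eq_nil_of_length_eq_zero hl.symm).symm
  | cons b v ih =>
    intro w hl hc hN
    cases w with
    | nil => simp at hl
    | cons c w =>
      have hl' : v.length = w.length := by simpa using hl
      have hodd : ∀ m : ℕ, 3 ^ m % 2 = 1 := fun m => by
        have : Odd (3 ^ m) := Odd.pow (by decide)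
        exact Nat.odd_iff.mp this
      have h1 := hodd (v.count true)
      have h2 := hodd (w.count true)
      cases b <;> cases c
      · simp [N] at hN hc
        rw [ih w hl' hc (by omega)]
      · simp [N] at hN
        omega
      · simp [N] at hN
        omega
      · simp [N] at hN hc
        rw [hc] at hN
        rw [ih w hl' hc (by omega)]

lemma T_N {k : ℤ} {b : Bool} {w : List Bool}
    (hk : k = 2 ^ (b :: w).length - 3 ^ ((b :: w).count true)) :
    T k (N (b :: w) : ℤ) = (N (w ++ [b]) : ℤ) := by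
  have hodd : ((3 : ℤ) ^ (w.count true)) % 2 = 1 := by
    have : Odd ((3 : ℤ) ^ (w.count true)) := Odd.pow (by decide)
    exact Int.odd_iff.mp this
  cases b
  · have h1 : N (w ++ [false]) = N w := by rw [N_append]; simp [N]
    have h2 : N (false :: w) = 2 * N w := by simp [N]
    rw [h1, h2]
    unfold T
    push_cast
    rw [if_neg (by omega)]
    omega
  · have h1 : N (w ++ [true]) = 3 * N w + 2 ^ w.length := by rw [N_append]; simp [N]
    have h2 : N (true :: w) = 3 ^ (w.count true) + 2 * N w := by simp [N]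
    rw [h1, h2]
    unfold T
    push_cast
    rw [if_pos (by omega)]
    simp only [List.length_cons, List.count_cons_self, pow_succ] at hk
    omega

lemma iterate_N {k : ℤ} (i : ℕ) : ∀ v : List Bool, k = 2 ^ v.length - 3 ^ (v.count true) →
    (T k)^[i] (N v : ℤ) = (N (v.rotate i) : ℤ) := by
  induction i with
  | zero => intro v _; simp
  | succ i ih =>
    intro v hk
    cases v with
    | nil =>
      have h0 : T k ((N [] : ℕ) : ℤ) = ((N [] : ℕ) : ℤ) := by
        simp [N, T]
      have h1 := ih [] hk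
      rw [Function.iterate_succ_apply, h0, h1]
      simp
    | cons b w =>
      rw [Function.iterate_succ_apply, T_N hk, List.rotate_cons_succ]
      apply ih
      rw [hk]
      simp [List.count_append, List.count_cons]

lemma iterate_period {k : ℤ} (v : List Bool) (hk : k = 2 ^ v.length - 3 ^ (v.count true)) :
    (T k)^[v.length] (N v : ℤ) = (N v : ℤ) := by
  rw [iterate_N _ v hk, List.rotate_length]

/-! ## The finite set of parity vectors -/

/-- Parity vectors of length `L` with `m` ones. -/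
def V : ℕ → ℕ → Finset (List Bool)
  | 0, 0 => {[]}
  | 0, _ + 1 => ∅
  | L + 1, 0 => (V L 0).image (List.cons false)
  | L + 1, m + 1 => (V L (m + 1)).image (List.cons false) ∪ (V L m).image (List.cons true)

lemma mem_V {L m : ℕ} {v : List Bool} : v ∈ V L m ↔ v.length = L ∧ v.count true = m := by
  induction L generalizing m v with
  | zero =>
    cases m with
    | zero =>
      simp only [V, Finset.mem_singleton]
      constructor
      · rintro rfl; simp
      · rintro ⟨h, _⟩; exact List.eq_nil_of_length_eq_zero h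
    | succ m =>
      simp only [V, Finset.notMem_empty, false_iff, not_and]
      intro h
      rw [List.eq_nil_of_length_eq_zero h]
      simp
  | succ L ih =>
    cases v with
    | nil => cases m <;> simp [V]
    | cons b v =>
      cases m with
      | zero =>
        cases b
        · simp [V, ih]
        · simp [V]
      | succ m =>
        cases b
        · simp [V, ih]
        · simp [V, ih]

lemma card_V (L m : ℕ) : (V L m).card = L.choose m := by
  induction L generalizing m with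
  | zero => cases m <;> simp [V]
  | succ L ih =>
    cases m with
    | zero =>
      simp only [V]
      rw [Finset.card_image_of_injective _ List.cons_injective, ih]
      simp
    | succ m =>
      simp only [V]
      rw [Finset.card_union_of_disjoint, Finset.card_image_of_injective _ List.cons_injective,
        Finset.card_image_of_injective _ List.cons_injective, ih, ih, Nat.choose_succ_succ,
        add_comm]
      rw [Finset.disjoint_left]
      intro a ha hb
      simp only [Finset.mem_image] at ha hb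
      obtain ⟨x, _, rfl⟩ := ha
      obtain ⟨y, _, hy⟩ := hb
      simp at hy

/-! ## Central binomial coefficients -/

lemma cb_step (n : ℕ) : 16 * (n * n.centralBinom ^ 2) ≤ (n + 1) * (n + 1).centralBinom ^ 2 := by
  have h := Nat.succ_mul_centralBinom_succ n
  have h2 : (n + 1) * ((n + 1) * (n + 1).centralBinom ^ 2) =
      (2 * (2 * n + 1) * n.centralBinom) ^ 2 := by
    rw [← h]; ring
  have h3 : (n + 1) * (16 * (n * n.centralBinom ^ 2)) ≤
      (n + 1) * ((n + 1) * (n + 1).centralBinom ^ 2) := by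
    rw [h2]
    have : (2 * (2 * n + 1) * n.centralBinom) ^ 2 =
        (n + 1) * (16 * (n * n.centralBinom ^ 2)) + 4 * n.centralBinom ^ 2 := by ring
    omega
  exact Nat.le_of_mul_le_mul_left h3 (by omega)

lemma cb_mono (n h : ℕ) : 16 ^ h * (n * n.centralBinom ^ 2) ≤
    (n + h) * (n + h).centralBinom ^ 2 := by
  induction h with
  | zero => simp
  | succ h ih =>
    calc 16 ^ (h + 1) * (n * n.centralBinom ^ 2) = 16 * (16 ^ h * (n * n.centralBinom ^ 2)) := by
          ring
      _ ≤ 16 * ((n + h) * (n + h).centralBinom ^ 2) := Nat.mul_le_mul_left _ ih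
      _ ≤ _ := cb_step (n + h)

lemma cb_window {q h : ℕ} (hq : 0 < q) (hh : 2 * h ≤ q) :
    4 ^ h * (q - h).centralBinom ≤ 2 * q.centralBinom := by
  have h1 := cb_mono (q - h) h
  rw [Nat.sub_add_cancel (by omega)] at h1
  have hpos : 0 < q - h := by omega
  have h2 : (q - h) * (4 ^ h * (q - h).centralBinom) ^ 2 ≤ (q - h) * (2 * q.centralBinom) ^ 2 := by
    calc (q - h) * (4 ^ h * (q - h).centralBinom) ^ 2
        = 16 ^ h * ((q - h) * (q - h).centralBinom ^ 2) := by
          have : (16 : ℕ) ^ h = 4 ^ h * 4 ^ h := by rw [← mul_pow]; norm_num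
          rw [this]; ring
      _ ≤ q * q.centralBinom ^ 2 := h1
      _ ≤ (4 * (q - h)) * q.centralBinom ^ 2 := Nat.mul_le_mul_right _ (by omega)
      _ = (q - h) * (2 * q.centralBinom) ^ 2 := by ring
  have h3 := Nat.le_of_mul_le_mul_left h2 hpos
  exact (Nat.pow_le_pow_iff_left (by norm_num)).mp h3

lemma cb_lower {q : ℕ} (hq : 0 < q) : 16 ^ q ≤ 4 * (q * q.centralBinom ^ 2) := by
  have h1 := cb_mono 1 (q - 1)
  rw [Nat.add_sub_cancel' hq] at h1
  have h2 : Nat.centralBinom 1 = 2 := by decide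
  rw [h2] at h1
  have h3 : 16 ^ q = 16 * 16 ^ (q - 1) := by
    rw [← pow_succ']
    congr 1
    omega
  rw [h3]
  omega

/-! ## Vectors whose numerator is divisible by a given prime -/

lemma bad_card {p q h : ℕ} (hp : p.Prime) (hp3 : p ≠ 3) (h9 : 9 ^ h ≤ p) (hh : 2 * h ≤ 2 * q) :
    ((V (2 * q) q).filter (fun v => p ∣ N v)).card ≤ (2 * h + 1) * (q - h).centralBinom := by
  classical
  have hmap : ((V (2 * q) q).filter (fun v => p ∣ N v)).card ≤
      ((Finset.range (2 * h + 1)).biUnion (fun t => V (2 * (q - h)) (q - t))).card := by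
    apply Finset.card_le_card_of_injOn (fun v => v.drop (2 * h))
    · intro v hv
      simp only [Finset.coe_filter, Set.mem_ofPred_eq, mem_V] at hv
      obtain ⟨⟨hl, hc⟩, _⟩ := hv
      simp only [Finset.coe_biUnion, Set.mem_iUnion, Finset.mem_coe]
      have hsplit : v.count true = (v.take (2 * h)).count true + (v.drop (2 * h)).count true := by
        rw [← List.count_append, List.take_append_drop]
      have htake : (v.take (2 * h)).count true ≤ 2 * h :=
        List.count_le_length.trans (by simp)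
      refine ⟨(v.take (2 * h)).count true, by simpa using Nat.lt_succ_of_le htake, ?_⟩
      rw [mem_V]
      refine ⟨?_, by omega⟩
      rw [List.length_drop]
      omega
    · intro v hv v' hv' heq
      simp only [Finset.coe_filter, Set.mem_ofPred_eq, mem_V] at hv hv'
      obtain ⟨⟨hl, hc⟩, hd⟩ := hv
      obtain ⟨⟨hl', hc'⟩, hd'⟩ := hv'
      simp only at heq
      set w := v.take (2 * h) with hw
      set w' := v'.take (2 * h) with hw'
      set u := v.drop (2 * h) with hu
      have hv1 : v = w ++ u := (List.take_append_drop _ _).symm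
      have hv1' : v' = w' ++ u := by rw [heq]; exact (List.take_append_drop _ _).symm
      have hwl : w.length = 2 * h := by rw [hw, List.length_take]; omega
      have hwl' : w'.length = 2 * h := by rw [hw', List.length_take]; omega
      have hcw : w.count true = w'.count true := by
        have e1 : v.count true = w.count true + u.count true := by rw [hv1, List.count_append]
        have e2 : v'.count true = w'.count true + u.count true := by rw [hv1', List.count_append]
        omega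
      rw [hv1, N_append, hwl] at hd
      rw [hv1', N_append, hwl'] at hd'
      have hlt : N w < p := by
        have := N_lt w
        rw [hwl, pow_mul] at this
        norm_num at this
        omega
      have hlt' : N w' < p := by
        have := N_lt w'
        rw [hwl', pow_mul] at this
        norm_num at this
        omega
      have hcop : Nat.Coprime p (3 ^ (u.count true)) := by
        apply Nat.Coprime.pow_right
        rw [hp.coprime_iff_not_dvd]
        intro h3
        exact hp3 ((Nat.prime_dvd_prime_iff_eq hp Nat.prime_three).mp h3)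
      have hmod : N w ≡ N w' [MOD p] := by
        have h1 : 3 ^ (u.count true) * N w + 2 ^ (2 * h) * N u ≡
            3 ^ (u.count true) * N w' + 2 ^ (2 * h) * N u [MOD p] :=
          ((Nat.modEq_zero_iff_dvd.mpr hd).trans (Nat.modEq_zero_iff_dvd.mpr hd').symm)
        have h2 := Nat.ModEq.add_right_cancel' _ h1
        exact Nat.ModEq.cancel_left_of_coprime hcop h2
      have hNeq : N w = N w' := Nat.ModEq.eq_of_lt_of_lt hmod hlt hlt'
      have : w = w' := N_inj w w' (by omega) hcw hNeq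
      rw [hv1, hv1', this]
  refine hmap.trans (Finset.card_biUnion_le.trans ?_)
  calc ∑ t ∈ Finset.range (2 * h + 1), (V (2 * (q - h)) (q - t)).card
      ≤ ∑ _t ∈ Finset.range (2 * h + 1), (q - h).centralBinom := by
        apply Finset.sum_le_sum
        intro t _
        rw [card_V]
        exact Nat.choose_le_centralBinom _ _
    _ = (2 * h + 1) * (q - h).centralBinom := by simp

/-- The same bound in terms of `min p q²`. -/
lemma bad_real {p q : ℕ} (hp : p.Prime) (hp3 : p ≠ 3) (hq : 3 ≤ q) :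
    (((V (2 * q) q).filter (fun v => p ∣ N v)).card : ℝ) ≤
      q.centralBinom * (24 * Real.log q) * ((min p (q ^ 2) : ℕ) : ℝ) ^ (-(3 / 5) : ℝ) := by
  set P : ℕ := min p (q ^ 2) with hP
  have hq2 : 0 < q ^ 2 := by positivity
  have hPpos : 0 < P := lt_min hp.pos hq2
  set h : ℕ := Nat.log 9 P with hh
  have h9 : 9 ^ h ≤ P := Nat.pow_log_le_self 9 hPpos.ne'
  have h9' : P < 9 ^ (h + 1) := Nat.lt_pow_succ_log_self (by norm_num) P
  have h9p : 9 ^ h ≤ p := h9.trans (min_le_left _ _)
  have h9q : 9 ^ h ≤ q ^ 2 := h9.trans (min_le_right _ _)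
  have h3q : 3 ^ h ≤ q := by
    have : (3 ^ h) ^ 2 ≤ q ^ 2 := by
      calc (3 ^ h) ^ 2 = 9 ^ h := by rw [← pow_mul, mul_comm, pow_mul]; norm_num
        _ ≤ q ^ 2 := h9q
    exact (Nat.pow_le_pow_iff_left (by norm_num)).mp this
  have h2h : 2 * h ≤ q := by
    have : ∀ m : ℕ, 2 * m ≤ 3 ^ m := by
      intro m
      induction m with
      | zero => simp
      | succ m ih =>
        have : 1 ≤ 3 ^ m := Nat.one_le_pow _ _ (by norm_num)
        rw [pow_succ]
        omega
    exact (this h).trans h3q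
  have hb := bad_card (q := q) hp hp3 h9p (by omega)
  have hcb := cb_window (by omega : 0 < q) h2h
  -- real versions
  have hbR : (((V (2 * q) q).filter (fun v => p ∣ N v)).card : ℝ) ≤
      (2 * h + 1) * (q - h).centralBinom := by exact_mod_cast hb
  have hcbR : (4 : ℝ) ^ h * (q - h).centralBinom ≤ 2 * q.centralBinom := by exact_mod_cast hcb
  have hPR : (0 : ℝ) < P := by exact_mod_cast hPpos
  have hkey : (P : ℝ) ^ (3 / 5 : ℝ) ≤ 4 * 4 ^ h := by
    by_contra hcon
    push Not at hcon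
    have h1 : ((4 : ℝ) * 4 ^ h) ^ 5 < ((P : ℝ) ^ (3 / 5 : ℝ)) ^ 5 :=
      pow_lt_pow_left₀ hcon (by positivity) (by norm_num)
    have h2 : ((P : ℝ) ^ (3 / 5 : ℝ)) ^ 5 = (P : ℝ) ^ 3 := by
      rw [← Real.rpow_natCast, ← Real.rpow_mul hPR.le, ← Real.rpow_natCast]
      norm_num
    have h3 : (P : ℝ) ^ 3 < ((9 : ℝ) ^ (h + 1)) ^ 3 := by
      apply pow_lt_pow_left₀ _ hPR.le (by norm_num)
      exact_mod_cast h9'
    have h4 : ((9 : ℝ) ^ (h + 1)) ^ 3 ≤ ((4 : ℝ) * 4 ^ h) ^ 5 := by
      have e1 : ((9 : ℝ) ^ (h + 1)) ^ 3 = 729 ^ (h + 1) := by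
        rw [← pow_mul, mul_comm, pow_mul]; norm_num
      have e2 : ((4 : ℝ) * 4 ^ h) ^ 5 = 1024 ^ (h + 1) := by
        rw [← pow_succ', ← pow_mul, mul_comm, pow_mul]; norm_num
      rw [e1, e2]
      exact pow_le_pow_left₀ (by norm_num) (by norm_num) _
    linarith
  have hneg : (P : ℝ) ^ (-(3 / 5) : ℝ) = ((P : ℝ) ^ (3 / 5 : ℝ))⁻¹ := Real.rpow_neg hPR.le _
  have hPpow : 0 < (P : ℝ) ^ (3 / 5 : ℝ) := Real.rpow_pos_of_pos hPR _
  have hinv : ((4 : ℝ) ^ h)⁻¹ ≤ 4 * (P : ℝ) ^ (-(3 / 5) : ℝ) := by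
    rw [hneg, inv_le_iff_one_le_mul₀ (by positivity)]
    have : (4 : ℝ) * ((P : ℝ) ^ (3 / 5 : ℝ))⁻¹ * 4 ^ h = (4 * 4 ^ h) / (P : ℝ) ^ (3 / 5 : ℝ) := by
      field_simp
    rw [this, one_le_div hPpow]
    exact hkey
  have hlogq : (1 : ℝ) ≤ Real.log q := by
    rw [Real.le_log_iff_exp_le (by positivity)]
    have : (3 : ℝ) ≤ q := by exact_mod_cast hq
    linarith [Real.exp_one_lt_d9]
  have hhlog : (h : ℝ) ≤ Real.log q := by
    have h1 : (h : ℝ) * Real.log 3 ≤ Real.log q := by
      rw [← Real.log_pow]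
      apply Real.log_le_log (by positivity)
      exact_mod_cast h3q
    have h2 : (1 : ℝ) ≤ Real.log 3 := by
      rw [Real.le_log_iff_exp_le (by norm_num)]
      linarith [Real.exp_one_lt_d9]
    nlinarith [Nat.cast_nonneg (α := ℝ) h]
  have h2h1 : (2 * (h : ℝ) + 1) ≤ 3 * Real.log q := by linarith
  have hcb2 : ((q - h).centralBinom : ℝ) ≤ 2 * q.centralBinom * ((4 : ℝ) ^ h)⁻¹ := by
    rw [← div_eq_mul_inv, le_div_iff₀ (by positivity)]
    linarith
  calc (((V (2 * q) q).filter (fun v => p ∣ N v)).card : ℝ)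
      ≤ (2 * h + 1) * (q - h).centralBinom := hbR
    _ ≤ (3 * Real.log q) * (2 * q.centralBinom * (4 * (P : ℝ) ^ (-(3 / 5) : ℝ))) := by
        apply mul_le_mul h2h1 _ (by positivity) (by linarith)
        refine hcb2.trans ?_
        exact mul_le_mul_of_nonneg_left hinv (by positivity)
    _ = q.centralBinom * (24 * Real.log q) * (P : ℝ) ^ (-(3 / 5) : ℝ) := by ring

/-! ## Prime factors of `4^q - 3^q` -/

lemma prime_factor {p q : ℕ} (hq : q.Prime) (hq3 : 3 ≤ q) (hp : p.Prime)
    (hd : p ∣ 4 ^ q - 3 ^ q) : p ≠ 3 ∧ ∃ j, 1 ≤ j ∧ p = 2 * q * j + 1 := by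
  have hle : 3 ^ q ≤ 4 ^ q := Nat.pow_le_pow_left (by norm_num) q
  have hp3 : p ≠ 3 := by
    rintro rfl
    have h3 : 3 ∣ 3 ^ q := dvd_pow_self 3 hq.ne_zero
    have h4 : 3 ∣ 4 ^ q := by
      have := dvd_add hd h3
      rwa [Nat.sub_add_cancel hle] at this
    have := Nat.Prime.dvd_of_dvd_pow Nat.prime_three h4
    norm_num at this
  have hp2 : p ≠ 2 := by
    rintro rfl
    have h4 : 2 ∣ 4 ^ q := Dvd.dvd.trans (by norm_num) (dvd_pow_self 4 hq.ne_zero)
    have h3 : 2 ∣ 3 ^ q := by
      have := (Nat.dvd_sub_iff_right hle h4).mp hd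
      exact this
    have := Nat.Prime.dvd_of_dvd_pow Nat.prime_two h3
    norm_num at this
  refine ⟨hp3, ?_⟩
  have : Fact p.Prime := ⟨hp⟩
  have h3ne : (3 : ZMod p) ≠ 0 := by
    intro h
    have h' : ((3 : ℕ) : ZMod p) = 0 := by exact_mod_cast h
    rw [ZMod.natCast_eq_zero_iff] at h'
    exact hp3 ((Nat.prime_dvd_prime_iff_eq hp Nat.prime_three).mp h')
  have heq : (4 : ZMod p) ^ q = 3 ^ q := by
    have h := (ZMod.natCast_eq_zero_iff (4 ^ q - 3 ^ q) p).mpr hd
    rw [Nat.cast_sub hle] at h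
    push_cast at h
    exact sub_eq_zero.mp h
  set a : ZMod p := 4 / 3 with ha
  have hapow : a ^ q = 1 := by
    rw [ha, div_pow, heq, div_self (pow_ne_zero _ h3ne)]
  have hane : a ≠ 0 := by
    intro h
    rw [h, zero_pow hq.ne_zero] at hapow
    exact zero_ne_one hapow
  have hord : orderOf a = q := by
    rcases (Nat.dvd_prime hq).mp (orderOf_dvd_of_pow_eq_one hapow) with h | h
    · exfalso
      rw [orderOf_eq_one_iff] at h
      rw [ha, div_eq_one_iff_eq h3ne] at h
      have : (1 : ZMod p) = 0 := by linear_combination h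
      exact one_ne_zero this
    · exact h
  have hqd : q ∣ p - 1 := by
    rw [← hord]
    exact ZMod.orderOf_dvd_card_sub_one hane
  have hpodd : Odd p := hp.odd_of_ne_two hp2
  have h2d : 2 ∣ p - 1 := by
    obtain ⟨r, hr⟩ := hpodd
    exact ⟨r, by omega⟩
  have hcop : Nat.Coprime 2 q := by
    rw [Nat.coprime_primes Nat.prime_two hq]
    omega
  obtain ⟨j, hj⟩ := hcop.mul_dvd_of_dvd_of_dvd h2d hqd
  refine ⟨j, ?_, ?_⟩
  · rcases Nat.eq_zero_or_pos j with h | h
    · rw [h] at hj
      have := hp.two_le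
      omega
    · exact h
  · have := hp.two_le
    omega

lemma sum_inv_sqrt (n : ℕ) : ∑ j ∈ Finset.Icc 1 n, (√(j : ℝ))⁻¹ ≤ 2 * √(n : ℝ) := by
  induction n with
  | zero => simp
  | succ n ih =>
    rw [Finset.sum_Icc_succ_top (by omega)]
    have hs : 0 < √((n + 1 : ℕ) : ℝ) := Real.sqrt_pos.mpr (by positivity)
    have h0 : 0 ≤ √(n : ℝ) := Real.sqrt_nonneg _
    have h1 : √((n + 1 : ℕ) : ℝ) * √((n + 1 : ℕ) : ℝ) = (n : ℝ) + 1 := by
      rw [Real.mul_self_sqrt (by positivity)]; push_cast; ring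
    have h2 : √(n : ℝ) * √(n : ℝ) = (n : ℝ) := Real.mul_self_sqrt (by positivity)
    have h3 : (√((n + 1 : ℕ) : ℝ))⁻¹ ≤ 2 * √((n + 1 : ℕ) : ℝ) - 2 * √(n : ℝ) := by
      rw [inv_le_iff_one_le_mul₀ hs]
      nlinarith [sq_nonneg (√((n + 1 : ℕ) : ℝ) - √(n : ℝ))]
    linarith

/-- The sum of the weights `min(p, q²)^{-3/5}` over the prime factors is small. -/
lemma sum_weights {q : ℕ} (hq : q.Prime) (hq3 : 3 ≤ q) :
    ∑ p ∈ (4 ^ q - 3 ^ q).primeFactors, ((min p (q ^ 2) : ℕ) : ℝ) ^ (-(3 / 5) : ℝ) ≤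
      4 * (q : ℝ) ^ (-(1 / 10) : ℝ) := by
  classical
  set Q := (4 ^ q - 3 ^ q).primeFactors with hQ
  have hqpos : (0 : ℝ) < q := by exact_mod_cast hq.pos
  have hq1 : (1 : ℝ) ≤ q := by exact_mod_cast hq.one_le
  have hkpos : 0 < 4 ^ q - 3 ^ q := by
    have : 3 ^ q < 4 ^ q := Nat.pow_lt_pow_left (by norm_num) hq.ne_zero
    omega
  rw [← Finset.sum_filter_add_sum_filter_not Q (fun p => p < q ^ 2)]
  have hA : ∑ p ∈ Q.filter (fun p => p < q ^ 2), ((min p (q ^ 2) : ℕ) : ℝ) ^ (-(3 / 5) : ℝ) ≤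
      2 * (q : ℝ) ^ (-(1 / 10) : ℝ) := by
    have hsub : Q.filter (fun p => p < q ^ 2) ⊆
        (Finset.Icc 1 q).image (fun j => 2 * q * j + 1) := by
      intro p hp
      rw [Finset.mem_filter] at hp
      obtain ⟨hpQ, hlt⟩ := hp
      obtain ⟨_, j, hj, rfl⟩ := prime_factor hq hq3 (Nat.prime_of_mem_primeFactors hpQ)
        (Nat.dvd_of_mem_primeFactors hpQ)
      rw [Finset.mem_image]
      refine ⟨j, ?_, rfl⟩
      rw [Finset.mem_Icc]
      refine ⟨hj, ?_⟩
      by_contra hcon
      push Not at hcon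
      nlinarith
    have hinj : Set.InjOn (fun j => 2 * q * j + 1) (Finset.Icc 1 q : Set ℕ) := by
      intro a _ b _ hab
      simp only at hab
      have : 2 * q * a = 2 * q * b := by omega
      exact Nat.eq_of_mul_eq_mul_left (by omega) this
    calc ∑ p ∈ Q.filter (fun p => p < q ^ 2), ((min p (q ^ 2) : ℕ) : ℝ) ^ (-(3 / 5) : ℝ)
        = ∑ p ∈ Q.filter (fun p => p < q ^ 2), (p : ℝ) ^ (-(3 / 5) : ℝ) := by
          apply Finset.sum_congr rfl
          intro p hp
          rw [Finset.mem_filter] at hp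
          rw [min_eq_left hp.2.le]
      _ ≤ ∑ p ∈ (Finset.Icc 1 q).image (fun j => 2 * q * j + 1), (p : ℝ) ^ (-(3 / 5) : ℝ) := by
          apply Finset.sum_le_sum_of_subset_of_nonneg hsub
          intro i _ _
          positivity
      _ = ∑ j ∈ Finset.Icc 1 q, ((2 * q * j + 1 : ℕ) : ℝ) ^ (-(3 / 5) : ℝ) :=
          Finset.sum_image hinj
      _ ≤ ∑ j ∈ Finset.Icc 1 q, (q : ℝ) ^ (-(3 / 5) : ℝ) * (√(j : ℝ))⁻¹ := by
          apply Finset.sum_le_sum
          intro j hj
          rw [Finset.mem_Icc] at hj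
          have hj1 : (1 : ℝ) ≤ j := by exact_mod_cast hj.1
          have hj0 : (0 : ℝ) < j := by linarith
          have h1 : ((2 * q * j + 1 : ℕ) : ℝ) ^ (-(3 / 5) : ℝ) ≤ ((q : ℝ) * j) ^ (-(3 / 5) : ℝ) := by
            apply Real.rpow_le_rpow_of_nonpos (by positivity) _ (by norm_num)
            push_cast
            nlinarith [mul_pos hqpos hj0]
          have h2 : ((q : ℝ) * j) ^ (-(3 / 5) : ℝ) =
              (q : ℝ) ^ (-(3 / 5) : ℝ) * (j : ℝ) ^ (-(3 / 5) : ℝ) :=
            Real.mul_rpow hqpos.le hj0.le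
          have h3 : (j : ℝ) ^ (-(3 / 5) : ℝ) ≤ (√(j : ℝ))⁻¹ := by
            have : (√(j : ℝ))⁻¹ = (j : ℝ) ^ (-(1 / 2) : ℝ) := by
              rw [Real.sqrt_eq_rpow, ← Real.rpow_neg hj0.le]
            rw [this]
            exact Real.rpow_le_rpow_of_exponent_le hj1 (by norm_num)
          calc ((2 * q * j + 1 : ℕ) : ℝ) ^ (-(3 / 5) : ℝ)
              ≤ (q : ℝ) ^ (-(3 / 5) : ℝ) * (j : ℝ) ^ (-(3 / 5) : ℝ) := h2 ▸ h1
            _ ≤ _ := mul_le_mul_of_nonneg_left h3 (by positivity)
      _ = (q : ℝ) ^ (-(3 / 5) : ℝ) * ∑ j ∈ Finset.Icc 1 q, (√(j : ℝ))⁻¹ := by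
          rw [Finset.mul_sum]
      _ ≤ (q : ℝ) ^ (-(3 / 5) : ℝ) * (2 * √(q : ℝ)) :=
          mul_le_mul_of_nonneg_left (sum_inv_sqrt q) (by positivity)
      _ = 2 * (q : ℝ) ^ (-(1 / 10) : ℝ) := by
          rw [Real.sqrt_eq_rpow]
          have : (q : ℝ) ^ (-(1 / 10) : ℝ) = (q : ℝ) ^ (-(3 / 5) : ℝ) * (q : ℝ) ^ (1 / 2 : ℝ) := by
            rw [← Real.rpow_add hqpos]; norm_num
          rw [this]; ring
  have hB : ∑ p ∈ Q.filter (fun p => ¬ p < q ^ 2), ((min p (q ^ 2) : ℕ) : ℝ) ^ (-(3 / 5) : ℝ) ≤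
      2 * (q : ℝ) ^ (-(1 / 10) : ℝ) := by
    have hcard : Q.card ≤ 2 * q := by
      have h1 : 2 ^ Q.card ≤ ∏ p ∈ Q, p := by
        rw [← Finset.prod_const]
        apply Finset.prod_le_prod'
        intro p hp
        exact (Nat.prime_of_mem_primeFactors hp).two_le
      have h2 : ∏ p ∈ Q, p ≤ 4 ^ q - 3 ^ q :=
        Nat.le_of_dvd hkpos (Nat.prod_primeFactors_dvd _)
      have h3 : 2 ^ Q.card ≤ 2 ^ (2 * q) := by
        calc 2 ^ Q.card ≤ 4 ^ q - 3 ^ q := h1.trans h2
          _ ≤ 4 ^ q := Nat.sub_le _ _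
          _ = 2 ^ (2 * q) := by rw [pow_mul]; norm_num
      exact (Nat.pow_le_pow_iff_right (by norm_num)).mp h3
    calc ∑ p ∈ Q.filter (fun p => ¬ p < q ^ 2), ((min p (q ^ 2) : ℕ) : ℝ) ^ (-(3 / 5) : ℝ)
        = ∑ p ∈ Q.filter (fun p => ¬ p < q ^ 2), (q : ℝ) ^ (-(6 / 5) : ℝ) := by
          apply Finset.sum_congr rfl
          intro p hp
          rw [Finset.mem_filter] at hp
          rw [min_eq_right (not_lt.mp hp.2)]
          push_cast
          rw [← Real.rpow_natCast, ← Real.rpow_mul hqpos.le]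
          norm_num
      _ = ((Q.filter (fun p => ¬ p < q ^ 2)).card : ℝ) * (q : ℝ) ^ (-(6 / 5) : ℝ) := by
          rw [Finset.sum_const, nsmul_eq_mul]
      _ ≤ (2 * q : ℝ) * (q : ℝ) ^ (-(6 / 5) : ℝ) := by
          apply mul_le_mul_of_nonneg_right _ (by positivity)
          exact_mod_cast (Finset.card_filter_le _ _).trans hcard
      _ = 2 * (q : ℝ) ^ (-(1 / 5) : ℝ) := by
          have : (q : ℝ) ^ (-(1 / 5) : ℝ) = (q : ℝ) * (q : ℝ) ^ (-(6 / 5) : ℝ) := by
            nth_rewrite 2 [← Real.rpow_one (q : ℝ)]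
            rw [← Real.rpow_add hqpos]; norm_num
          rw [this]; ring
      _ ≤ 2 * (q : ℝ) ^ (-(1 / 10) : ℝ) := by
          apply mul_le_mul_of_nonneg_left _ (by norm_num)
          exact Real.rpow_le_rpow_of_exponent_le hq1 (by norm_num)
  linarith

/-- For large primes `q`, at least half of the balanced parity vectors have numerator coprime
to `4^q - 3^q`. -/
lemma good_count : ∃ Q0 : ℕ, ∀ q : ℕ, q.Prime → Q0 ≤ q → 3 ≤ q →
    (q.centralBinom : ℝ) / 2 ≤
      ((V (2 * q) q).filter (fun v => Nat.Coprime (N v) (4 ^ q - 3 ^ q))).card := by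
  classical
  -- smallness of `log q * q^(-1/10)`
  have hlo : ∀ᶠ x : ℝ in Filter.atTop, |Real.log x| ≤ (1 / 192) * |x ^ (1 / 10 : ℝ)| := by
    have := (isLittleO_log_rpow_atTop (show (0 : ℝ) < 1 / 10 by norm_num)).def
      (show (0 : ℝ) < 1 / 192 by norm_num)
    simpa [Real.norm_eq_abs] using this
  obtain ⟨X, hX⟩ := Filter.eventually_atTop.mp hlo
  refine ⟨⌈X⌉₊, ?_⟩
  intro q hq hqX hq3
  have hqX' : X ≤ (q : ℝ) := (Nat.le_ceil X).trans (by exact_mod_cast hqX)
  have hqpos : (0 : ℝ) < q := by exact_mod_cast hq.pos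
  have hq1 : (1 : ℝ) ≤ q := by exact_mod_cast hq.one_le
  have hlog := hX q hqX'
  rw [abs_of_nonneg (Real.log_nonneg hq1), abs_of_nonneg (by positivity)] at hlog
  have hsmall : 24 * Real.log q * (4 * (q : ℝ) ^ (-(1 / 10) : ℝ)) ≤ 1 / 2 := by
    have h1 : (q : ℝ) ^ (-(1 / 10) : ℝ) = ((q : ℝ) ^ (1 / 10 : ℝ))⁻¹ := Real.rpow_neg hqpos.le _
    have h2 : 0 < (q : ℝ) ^ (1 / 10 : ℝ) := Real.rpow_pos_of_pos hqpos _
    rw [h1]
    have h3 : 24 * Real.log q * (4 * ((q : ℝ) ^ (1 / 10 : ℝ))⁻¹) =
        96 * Real.log q / (q : ℝ) ^ (1 / 10 : ℝ) := by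
      field_simp; ring
    rw [h3, div_le_iff₀ h2]
    linarith
  set k := 4 ^ q - 3 ^ q with hk
  have hkpos : 0 < k := by
    have : 3 ^ q < 4 ^ q := Nat.pow_lt_pow_left (by norm_num) hq.ne_zero
    omega
  have hcardV : (V (2 * q) q).card = q.centralBinom := by
    rw [card_V]; rfl
  have hsplit := Finset.card_filter_add_card_filter_not (s := V (2 * q) q)
    (fun v => Nat.Coprime (N v) k)
  have hbad : ((V (2 * q) q).filter (fun v => ¬ Nat.Coprime (N v) k)).card ≤
      ∑ p ∈ k.primeFactors, ((V (2 * q) q).filter (fun v => p ∣ N v)).card := by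
    have hsub : (V (2 * q) q).filter (fun v => ¬ Nat.Coprime (N v) k) ⊆
        k.primeFactors.biUnion (fun p => (V (2 * q) q).filter (fun v => p ∣ N v)) := by
      intro v hv
      rw [Finset.mem_filter] at hv
      obtain ⟨hvV, hnc⟩ := hv
      obtain ⟨p, hp, hp1, hp2⟩ := Nat.Prime.not_coprime_iff_dvd.mp hnc
      rw [Finset.mem_biUnion]
      exact ⟨p, Nat.mem_primeFactors.mpr ⟨hp, hp2, hkpos.ne'⟩,
        Finset.mem_filter.mpr ⟨hvV, hp1⟩⟩
    exact (Finset.card_le_card hsub).trans Finset.card_biUnion_le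
  have hbadR : (((V (2 * q) q).filter (fun v => ¬ Nat.Coprime (N v) k)).card : ℝ) ≤
      (q.centralBinom : ℝ) / 2 := by
    calc (((V (2 * q) q).filter (fun v => ¬ Nat.Coprime (N v) k)).card : ℝ)
        ≤ ∑ p ∈ k.primeFactors, (((V (2 * q) q).filter (fun v => p ∣ N v)).card : ℝ) := by
          exact_mod_cast hbad
      _ ≤ ∑ p ∈ k.primeFactors, q.centralBinom * (24 * Real.log q) *
            ((min p (q ^ 2) : ℕ) : ℝ) ^ (-(3 / 5) : ℝ) := by
          apply Finset.sum_le_sum
          intro p hp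
          have hpp := Nat.prime_of_mem_primeFactors hp
          exact bad_real hpp (prime_factor hq hq3 hpp (Nat.dvd_of_mem_primeFactors hp)).1 hq3
      _ = q.centralBinom * (24 * Real.log q) *
            ∑ p ∈ k.primeFactors, ((min p (q ^ 2) : ℕ) : ℝ) ^ (-(3 / 5) : ℝ) := by
          rw [Finset.mul_sum]
      _ ≤ q.centralBinom * (24 * Real.log q) * (4 * (q : ℝ) ^ (-(1 / 10) : ℝ)) := by
          apply mul_le_mul_of_nonneg_left (sum_weights hq hq3)
          have := Real.log_nonneg hq1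
          positivity
      _ = q.centralBinom * (24 * Real.log q * (4 * (q : ℝ) ^ (-(1 / 10) : ℝ))) := by ring
      _ ≤ q.centralBinom * (1 / 2) := mul_le_mul_of_nonneg_left hsmall (by positivity)
      _ = (q.centralBinom : ℝ) / 2 := by ring
  have hsplitR : (((V (2 * q) q).filter (fun v => Nat.Coprime (N v) k)).card : ℝ) +
      (((V (2 * q) q).filter (fun v => ¬ Nat.Coprime (N v) k)).card : ℝ) = q.centralBinom := by
    rw [← hcardV]
    exact_mod_cast hsplit
  linarith

/-! ## From periodic points to cycles -/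

/-- The orbit of a periodic point. -/
noncomputable def orb (k x : ℤ) : Finset ℤ :=
  (Finset.range (Function.minimalPeriod (T k) x)).image (fun i => (T k)^[i] x)

lemma orb_spec {k x : ℤ} {L : ℕ} (hL : 0 < L) (hx : Int.gcd x k = 1)
    (hper : (T k)^[L] x = x) :
    x ∈ orb k x ∧ (orb k x).card ≤ L ∧ ∃ l ≤ L, IsPrimitiveCycle k l (orb k x) := by
  have hmem : x ∈ Function.periodicPts (T k) := Function.mk_mem_periodicPts hL hper
  have hpos : 0 < Function.minimalPeriod (T k) x := Function.minimalPeriod_pos_of_mem_periodicPts hmem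
  have hle : Function.minimalPeriod (T k) x ≤ L :=
    Function.IsPeriodicPt.minimalPeriod_le hL hper
  refine ⟨?_, ?_, Function.minimalPeriod (T k) x, hle, ?_⟩
  · unfold orb
    rw [Finset.mem_image]
    exact ⟨0, Finset.mem_range.mpr hpos, rfl⟩
  · unfold orb
    exact Finset.card_image_le.trans (by simpa using hle)
  · refine ⟨fun i => (T k)^[i] x, hpos, ?_, ?_, ?_, rfl, hx⟩
    · intro i hi j hj hij
      exact Function.iterate_injOn_Iio_minimalPeriod hi hj hij
    · intro i _
      exact (Function.iterate_succ_apply' (T k) i x).symm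
    · have h1 : (T k)^[Function.minimalPeriod (T k) x - 1 + 1] x =
          T k ((T k)^[Function.minimalPeriod (T k) x - 1] x) := Function.iterate_succ_apply' _ _ _
      rw [Nat.sub_add_cancel hpos, Function.iterate_minimalPeriod] at h1
      exact h1.symm

/-- Many primitive cycles for `k = 4^q - 3^q`. -/
lemma many_cycles {q : ℕ} (hq : 0 < q)
    {c : ℝ} (hc : c ≤ ((V (2 * q) q).filter (fun v => Nat.Coprime (N v) (4 ^ q - 3 ^ q))).card) :
    ∃ F : Finset (Finset ℤ),
      (∀ C ∈ F, ∃ l ≤ 2 * q, IsPrimitiveCycle ((4 ^ q - 3 ^ q : ℕ) : ℤ) l C) ∧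
      c / (2 * q) ≤ F.card := by
  classical
  set k : ℤ := ((4 ^ q - 3 ^ q : ℕ) : ℤ) with hk
  have hle : 3 ^ q ≤ 4 ^ q := Nat.pow_le_pow_left (by norm_num) q
  have hk2 : k = 2 ^ (2 * q) - 3 ^ q := by
    rw [hk, Nat.cast_sub hle, pow_mul]
    norm_num
  set G := (V (2 * q) q).filter (fun v => Nat.Coprime (N v) (4 ^ q - 3 ^ q)) with hG
  have hspec : ∀ v ∈ G, ((N v : ℕ) : ℤ) ∈ orb k (N v) ∧ (orb k (N v)).card ≤ 2 * q ∧
      ∃ l ≤ 2 * q, IsPrimitiveCycle k l (orb k (N v)) := by
    intro v hv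
    rw [hG, Finset.mem_filter, mem_V] at hv
    obtain ⟨⟨hl, hcount⟩, hcop⟩ := hv
    apply orb_spec (by omega)
    · rw [hk, Int.gcd_natCast_natCast]
      exact hcop
    · have := iterate_period v (k := k) (by rw [hl, hcount]; exact hk2)
      rwa [hl] at this
  refine ⟨G.image (fun v => orb k (N v)), ?_, ?_⟩
  · intro C hC
    rw [Finset.mem_image] at hC
    obtain ⟨v, hv, rfl⟩ := hC
    exact (hspec v hv).2.2
  · have h1 : (G.image (fun v => ((N v : ℕ) : ℤ))).card = G.card := by
      apply Finset.card_image_of_injOn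
      intro v hv w hw hvw
      have hv' := (mem_V.mp (Finset.mem_filter.mp hv).1)
      have hw' := (mem_V.mp (Finset.mem_filter.mp hw).1)
      simp only at hvw
      exact N_inj v w (by omega) (by omega) (by exact_mod_cast hvw)
    have h2 : G.image (fun v => ((N v : ℕ) : ℤ)) ⊆
        (G.image (fun v => orb k (N v))).biUnion id := by
      intro x hx
      rw [Finset.mem_image] at hx
      obtain ⟨v, hv, rfl⟩ := hx
      rw [Finset.mem_biUnion]
      exact ⟨orb k (N v), Finset.mem_image_of_mem _ hv, (hspec v hv).1⟩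
    have h3 : G.card ≤ (G.image (fun v => orb k (N v))).card * (2 * q) := by
      rw [← h1]
      refine (Finset.card_le_card h2).trans (Finset.card_biUnion_le_card_mul _ _ _ ?_)
      intro C hC
      rw [Finset.mem_image] at hC
      obtain ⟨v, hv, rfl⟩ := hC
      exact (hspec v hv).2.1
    have h4 : (G.card : ℝ) ≤ ((G.image (fun v => orb k (N v))).card : ℝ) * (2 * q) := by
      exact_mod_cast h3
    rw [div_le_iff₀ (by positivity)]
    linarith

/-- **Theorem.** There are infinitely many `k ≡ 1 (mod 6)` for which `T_k` has at least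
`k / (8 (log k)^{3/2})` distinct primitive integer cycles of period at most `1 + log₂ k`. -/
theorem result : ∀ K : ℕ, ∃ k : ℕ, K < k ∧ k % 6 = 1 ∧
    ∃ F : Finset (Finset ℤ),
      (∀ C ∈ F, ∃ L : ℕ, (L : ℝ) ≤ 1 + Real.logb 2 k ∧ IsPrimitiveCycle (k : ℤ) L C) ∧
      (k : ℝ) / (8 * Real.log k ^ (3 / 2 : ℝ)) ≤ F.card := by
  intro K
  obtain ⟨Q0, hQ0⟩ := good_count
  obtain ⟨q, hqge, hq⟩ := Nat.exists_infinite_primes (Q0 + K + 3)
  have hq3 : 3 ≤ q := by omega
  have hqpos : (0 : ℝ) < q := by exact_mod_cast hq.pos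
  obtain ⟨F, hF, hFcard⟩ := many_cycles hq.pos (hQ0 q hq (by omega) hq3)
  set k : ℕ := 4 ^ q - 3 ^ q with hk
  have hhalf : 2 * 3 ^ q ≤ 4 ^ q := by
    have h1 : ∀ m : ℕ, 2 * 3 ^ (m + 3) ≤ 4 ^ (m + 3) := by
      intro m
      induction m with
      | zero => norm_num
      | succ m ih =>
        have e1 : (3 : ℕ) ^ (m + 1 + 3) = 3 * 3 ^ (m + 3) := by ring
        have e2 : (4 : ℕ) ^ (m + 1 + 3) = 4 * 4 ^ (m + 3) := by ring
        rw [e1, e2]
        omega
    obtain ⟨m, rfl⟩ : ∃ m, q = m + 3 := ⟨q - 3, by omega⟩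
    exact h1 m
  have hk4 : 4 ^ q ≤ 2 * k := by omega
  have hkle : k ≤ 4 ^ q := Nat.sub_le _ _
  have hklarge : q < k := by
    have h1 : 2 * q < 4 ^ q := by
      have h2 : q < 2 ^ q := Nat.lt_two_pow_self
      have h3 : (4 : ℕ) ^ q = 2 ^ q * 2 ^ q := by rw [← mul_pow]; norm_num
      have h4 : 2 ≤ 2 ^ q := by
        calc 2 = 2 ^ 1 := by norm_num
          _ ≤ 2 ^ q := Nat.pow_le_pow_right (by norm_num) (by omega)
      rw [h3]
      nlinarith
    omega
  have hkposR : (0 : ℝ) < k := by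
    have : 0 < k := by omega
    exact_mod_cast this
  have hk4R : (4 : ℝ) ^ q ≤ 2 * k := by exact_mod_cast hk4
  have hkleR : (k : ℝ) ≤ 4 ^ q := by exact_mod_cast hkle
  refine ⟨k, by omega, ?_, F, ?_, ?_⟩
  · -- `k ≡ 1 (mod 6)`
    have h4 : 4 ^ q % 6 = 4 := by
      obtain ⟨m, rfl⟩ : ∃ m, q = m + 1 := ⟨q - 1, by omega⟩
      have : ∀ m : ℕ, 4 ^ (m + 1) % 6 = 4 := by
        intro m
        induction m with
        | zero => rfl
        | succ m ih => rw [pow_succ]; omega
      exact this m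
    have h3 : 3 ^ q % 6 = 3 := by
      obtain ⟨m, rfl⟩ : ∃ m, q = m + 1 := ⟨q - 1, by omega⟩
      have : ∀ m : ℕ, 3 ^ (m + 1) % 6 = 3 := by
        intro m
        induction m with
        | zero => rfl
        | succ m ih => rw [pow_succ]; omega
      exact this m
    omega
  · intro C hC
    obtain ⟨l, hl, hcyc⟩ := hF C hC
    refine ⟨l, ?_, hcyc⟩
    have h1 : (2 * q : ℝ) ≤ 1 + Real.logb 2 k := by
      have h2 : (2 : ℝ) ^ ((2 * q : ℕ) : ℝ) ≤ 2 * k := by
        rw [Real.rpow_natCast, pow_mul]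
        norm_num
        exact hk4R
      have h3 : ((2 * q : ℕ) : ℝ) ≤ Real.logb 2 (2 * k) := by
        rw [Real.le_logb_iff_rpow_le (by norm_num) (by positivity)]
        exact h2
      rw [Real.logb_mul (by norm_num) hkposR.ne', Real.logb_self_eq_one (by norm_num)] at h3
      push_cast at h3
      exact h3
    have h2 : (l : ℝ) ≤ 2 * q := by exact_mod_cast hl
    linarith
  · -- the count
    have hcb : (4 : ℝ) ^ q ≤ 2 * √(q : ℝ) * q.centralBinom := by
      have h1 := cb_lower hq.pos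
      have h2 : ((16 : ℝ)) ^ q ≤ 4 * (q * (q.centralBinom : ℝ) ^ 2) := by exact_mod_cast h1
      have h3 : (2 * √(q : ℝ) * q.centralBinom) ^ 2 = 4 * (q * (q.centralBinom : ℝ) ^ 2) := by
        rw [mul_pow, mul_pow, Real.sq_sqrt hqpos.le]; ring
      have h4 : ((4 : ℝ) ^ q) ^ 2 = 16 ^ q := by
        rw [← pow_mul, mul_comm, pow_mul]; norm_num
      apply le_of_sq_le_sq _ (by positivity)
      rw [h3, h4]
      exact h2
    have hlogk : (q : ℝ) ≤ Real.log k := by
      have h1 : Real.log (4 ^ q) ≤ Real.log (2 * k) := Real.log_le_log (by positivity) hk4R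
      rw [Real.log_pow, Real.log_mul (by norm_num) hkposR.ne'] at h1
      have h2 : Real.log 4 = 2 * Real.log 2 := by
        rw [show (4 : ℝ) = 2 ^ 2 by norm_num, Real.log_pow]; norm_num
      rw [h2] at h1
      have h3 := Real.log_two_gt_d9
      have h4 : (3 : ℝ) ≤ q := by exact_mod_cast hq3
      have h5 := Real.log_two_lt_d9
      nlinarith
    have hq32 : (q : ℝ) ^ (3 / 2 : ℝ) ≤ Real.log k ^ (3 / 2 : ℝ) :=
      Real.rpow_le_rpow hqpos.le hlogk (by norm_num)
    have hq32pos : 0 < (q : ℝ) ^ (3 / 2 : ℝ) := Real.rpow_pos_of_pos hqpos _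
    have hsplit : (q : ℝ) ^ (3 / 2 : ℝ) = q * √(q : ℝ) := by
      rw [Real.sqrt_eq_rpow]
      nth_rewrite 2 [← Real.rpow_one (q : ℝ)]
      rw [← Real.rpow_add hqpos]; norm_num
    calc (k : ℝ) / (8 * Real.log k ^ (3 / 2 : ℝ)) ≤ (k : ℝ) / (8 * (q : ℝ) ^ (3 / 2 : ℝ)) := by
          apply div_le_div_of_nonneg_left hkposR.le (by positivity)
          linarith
      _ ≤ (2 * √(q : ℝ) * q.centralBinom) / (8 * (q : ℝ) ^ (3 / 2 : ℝ)) := by
          apply div_le_div_of_nonneg_right (hkleR.trans hcb) (by positivity)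
      _ = (q.centralBinom : ℝ) / 2 / (2 * q) := by
          rw [hsplit]
          have : √(q : ℝ) ≠ 0 := (Real.sqrt_pos.mpr hqpos).ne'
          field_simp
          ring
      _ ≤ F.card := hFcard

end Pool.Agent.Results.MP_9c4f7e_nt.ManyShortCycles
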