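import Mathlib

set_option autoImplicit false

/-!
# Infinitely many `k` such that all primitive integer cycles of `T_k` have period `≥ c √k`
-/

namespace Pool.Agent.Results.MP_9c4f7e_nt.NoShortCyclesSqrt

/-- The map `T_k`: `x ↦ (3x+k)/2` for odd `x` and `x ↦ x/2` for even `x`. -/
def T (k : ℤ) (x : ℤ) : ℤ := if x % 2 = 1 then (3 * x + k) / 2 else x / 2

/-! ## The exponent pair of a cycle -/

lemma iterate_congr {k : ℤ} (hk : k % 2 = 1) (x : ℤ) (n : ℕ) :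
    ∃ m ≤ n, k ∣ 2 ^ n * (T k)^[n] x - 3 ^ m * x := by
  induction n with
  | zero => exact ⟨0, le_refl _, by simp⟩
  | succ n ih =>
    obtain ⟨m, hm, c, hc⟩ := ih
    rw [Function.iterate_succ_apply']
    set y := (T k)^[n] x with hy
    by_cases h : y % 2 = 1
    · refine ⟨m + 1, by omega, 2 ^ n + 3 * c, ?_⟩
      have h2 : 2 * T k y = 3 * y + k := by
        unfold T
        rw [if_pos h]
        omega
      rw [pow_succ, pow_succ]
      linear_combination 2 ^ n * h2 + 3 * hc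
    · refine ⟨m, by omega, c, ?_⟩
      have h2 : 2 * T k y = y := by
        unfold T
        rw [if_neg h]
        omega
      rw [pow_succ]
      linear_combination 2 ^ n * h2 + hc

lemma cycle_dvd {k : ℤ} (hk : k % 2 = 1) {x : ℤ} (hx : Int.gcd x k = 1) {n : ℕ}
    (hn : (T k)^[n] x = x) : ∃ m ≤ n, k ∣ 2 ^ n - 3 ^ m := by
  obtain ⟨m, hm, hdvd⟩ := iterate_congr hk x n
  refine ⟨m, hm, ?_⟩
  rw [hn, ← sub_mul] at hdvd
  have hco : IsCoprime k x := by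
    rw [Int.isCoprime_iff_gcd_eq_one, Int.gcd_comm]
    exact hx
  exact hco.dvd_of_dvd_mul_right hdvd

/-! ## Lifting the exponent -/

lemma lte_bound {p : ℕ} (hp : p.Prime) (hodd : Odd p) {X Y : ℤ} {e : ℕ}
    (he : ¬ (p : ℤ) ^ (e + 1) ∣ X - Y) (hdiv : (p : ℤ) ∣ X - Y) (hX : ¬ (p : ℤ) ∣ X)
    {n a : ℕ} (hn : 0 < n) (ha : (p : ℤ) ^ a ∣ X ^ n - Y ^ n) : p ^ a ≤ p ^ e * n := by
  have h1 : ((a : ℕ) : ℕ∞) ≤ emultiplicity (p : ℤ) (X ^ n - Y ^ n) :=
    le_emultiplicity_of_pow_dvd ha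
  rw [Int.emultiplicity_pow_sub_pow hp hodd hdiv hX] at h1
  have h2 : emultiplicity (p : ℤ) (X - Y) < ((e + 1 : ℕ) : ℕ∞) :=
    emultiplicity_lt_iff_not_dvd.mpr he
  have hfin : FiniteMultiplicity p n := Nat.finiteMultiplicity_iff.mpr ⟨hp.ne_one, hn⟩
  rw [hfin.emultiplicity_eq_multiplicity] at h1
  obtain ⟨u, hu⟩ : ∃ u : ℕ, emultiplicity (p : ℤ) (X - Y) = (u : ℕ∞) := by
    have : emultiplicity (p : ℤ) (X - Y) ≠ ⊤ := ne_top_of_lt h2
    exact ⟨_, (ENat.natCast_toNat this).symm⟩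
  rw [hu] at h1 h2
  have h3 : u < e + 1 := by exact_mod_cast h2
  have h4 : a ≤ u + multiplicity p n := by exact_mod_cast h1
  have h5 : p ^ multiplicity p n ≤ n := Nat.le_of_dvd hn (pow_multiplicity_dvd p n)
  calc p ^ a ≤ p ^ (e + multiplicity p n) := Nat.pow_le_pow_right hp.pos (by omega)
    _ = p ^ e * p ^ multiplicity p n := pow_add _ _ _
    _ ≤ p ^ e * n := Nat.mul_le_mul_left _ h5

lemma exists_not_pow_dvd {p : ℕ} (hp : p.Prime) {z : ℤ} (hz : z ≠ 0) :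
    ∃ e : ℕ, ¬ (p : ℤ) ^ (e + 1) ∣ z := by
  refine ⟨z.natAbs, fun h => ?_⟩
  have h1 : (p ^ (z.natAbs + 1)) ∣ z.natAbs := by
    have := Int.natAbs_dvd_natAbs.mpr h
    rwa [Int.natAbs_pow, Int.natAbs_natCast] at this
  have h2 := Nat.le_of_dvd (Int.natAbs_pos.mpr hz) h1
  have h3 : z.natAbs + 1 < p ^ (z.natAbs + 1) := Nat.lt_pow_self hp.one_lt
  omega

/-! ## Two exponent pairs -/

/-- If `p^a` divides `2^n - 3^m` and `2^n' - 3^m'`, it divides `2^(n m') - 2^(n' m)`. -/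
lemma dvd_two_pows {q : ℤ} {n m n' m' : ℕ} (h : q ∣ 2 ^ n - 3 ^ m)
    (h' : q ∣ 2 ^ n' - 3 ^ m') : q ∣ 2 ^ (n * m') - 2 ^ (n' * m) := by
  have h1 : q ∣ (2 ^ n) ^ m' - (3 ^ m) ^ m' := h.trans (sub_dvd_pow_sub_pow _ _ _)
  have h2 : q ∣ (2 ^ n') ^ m - (3 ^ m') ^ m := h'.trans (sub_dvd_pow_sub_pow _ _ _)
  have h3 := dvd_sub h1 h2
  have e : ((2 : ℤ) ^ n) ^ m' - (3 ^ m) ^ m' - ((2 ^ n') ^ m - (3 ^ m') ^ m) =
      2 ^ (n * m') - 2 ^ (n' * m) := by
    rw [← pow_mul, ← pow_mul, ← pow_mul, ← pow_mul, mul_comm m m']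
    ring
  rwa [e] at h3

lemma dvd_two_pow_sub_one {q : ℤ} (hq : IsCoprime q 2) {u v : ℕ} (huv : v ≤ u)
    (h : q ∣ 2 ^ u - 2 ^ v) : q ∣ 2 ^ (u - v) - 1 := by
  have e : (2 : ℤ) ^ u - 2 ^ v = 2 ^ v * (2 ^ (u - v) - 1) := by
    rw [mul_sub, ← pow_add, mul_one, Nat.add_sub_cancel' huv]
  rw [e] at h
  exact (hq.pow_right).dvd_of_dvd_mul_left h

/-- The core statement about exponent pairs. -/
lemma core {p : ℕ} (hp : p.Prime) (hp5 : 5 ≤ p) {D c : ℝ} (hD : 0 < D) (_hc : 0 < c)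
    (hDc : D * c ^ 2 * √(p : ℝ) ≤ 1)
    (hord : ∀ d a : ℕ, 0 < d → ((p : ℤ) ^ a) ∣ 2 ^ d - 1 → (p : ℝ) ^ a ≤ D * d) (A : ℕ) :
    ∃ a ≥ A, ∀ n m : ℕ, 0 < n → m ≤ n → ((p : ℤ) ^ a) ∣ 2 ^ n - 3 ^ m →
      c * √((p : ℝ) ^ a) ≤ n := by
  by_contra hcon
  push Not at hcon
  choose! n m hn hmn hdvd hlt using hcon
  have hodd : Odd p := hp.odd_of_ne_two (by omega)
  have hp0 : (0 : ℝ) < p := by exact_mod_cast hp.pos
  have hcop2 : ∀ a : ℕ, IsCoprime ((p : ℤ) ^ a) 2 := by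
    intro a
    apply IsCoprime.pow_left
    have : Nat.Coprime p 2 := Nat.coprime_two_right.mpr hodd
    exact_mod_cast Nat.isCoprime_iff_coprime.mpr this
  -- consecutive pairs are proportional
  have hprop1 : ∀ a ≥ A, n a * m (a + 1) = n (a + 1) * m a := by
    intro a ha
    by_contra hne
    have ha' : A ≤ a + 1 := by omega
    have hd1 : ((p : ℤ) ^ a) ∣ 2 ^ n (a + 1) - 3 ^ m (a + 1) :=
      (pow_dvd_pow _ (by omega)).trans (hdvd (a + 1) ha')
    have key : ∃ d : ℕ, 0 < d ∧ d ≤ n a * n (a + 1) ∧ ((p : ℤ) ^ a) ∣ 2 ^ d - 1 := by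
      have b1 : n a * m (a + 1) ≤ n a * n (a + 1) := Nat.mul_le_mul_left _ (hmn _ ha')
      have b2 : n (a + 1) * m a ≤ n a * n (a + 1) := by
        rw [mul_comm (n a)]
        exact Nat.mul_le_mul_left _ (hmn _ ha)
      rcases Nat.lt_or_gt_of_ne hne with h | h
      · refine ⟨n (a + 1) * m a - n a * m (a + 1), by omega, by omega, ?_⟩
        exact dvd_two_pow_sub_one (hcop2 a) h.le (dvd_two_pows hd1 (hdvd a ha))
      · refine ⟨n a * m (a + 1) - n (a + 1) * m a, by omega, by omega, ?_⟩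
        exact dvd_two_pow_sub_one (hcop2 a) h.le (dvd_two_pows (hdvd a ha) hd1)
    obtain ⟨d, hd0, hdle, hdd⟩ := key
    have h1 := hord d a hd0 hdd
    have h2 : (d : ℝ) ≤ n a * n (a + 1) := by exact_mod_cast hdle
    have h3 := hlt a ha
    have h4 := hlt (a + 1) ha'
    have hna : (0 : ℝ) < n a := by exact_mod_cast hn a ha
    have hna' : (0 : ℝ) < n (a + 1) := by exact_mod_cast hn (a + 1) ha'
    have h5 : (n a : ℝ) * n (a + 1) < (c * √((p : ℝ) ^ a)) * (c * √((p : ℝ) ^ (a + 1))) :=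
      mul_lt_mul'' h3 h4 hna.le hna'.le
    have hs : √((p : ℝ) ^ (a + 1)) = √((p : ℝ) ^ a) * √(p : ℝ) := by
      rw [pow_succ, Real.sqrt_mul (by positivity)]
    have hss : √((p : ℝ) ^ a) * √((p : ℝ) ^ a) = (p : ℝ) ^ a :=
      Real.mul_self_sqrt (by positivity)
    have h6 : (c * √((p : ℝ) ^ a)) * (c * √((p : ℝ) ^ (a + 1))) =
        c ^ 2 * √(p : ℝ) * (p : ℝ) ^ a := by
      rw [hs]
      linear_combination (c ^ 2 * √(p : ℝ)) * hss
    have h7 : D * d < (p : ℝ) ^ a := by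
      calc D * (d : ℝ) ≤ D * (n a * n (a + 1)) := mul_le_mul_of_nonneg_left h2 hD.le
        _ < D * (c ^ 2 * √(p : ℝ) * (p : ℝ) ^ a) := by
            rw [← h6]; exact mul_lt_mul_of_pos_left h5 hD
        _ = (D * c ^ 2 * √(p : ℝ)) * (p : ℝ) ^ a := by ring
        _ ≤ 1 * (p : ℝ) ^ a := mul_le_mul_of_nonneg_right hDc (by positivity)
        _ = (p : ℝ) ^ a := one_mul _
    linarith
  -- hence all pairs are proportional to the first one
  have hprop : ∀ a ≥ A, n a * m A = n A * m a := by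
    intro a ha
    induction a, ha using Nat.le_induction with
    | base => rfl
    | succ a ha ih =>
      have h1 := hprop1 a ha
      have h2 : n a * (n (a + 1) * m A) = n a * (n A * m (a + 1)) := by
        calc n a * (n (a + 1) * m A) = n (a + 1) * (n a * m A) := by ring
          _ = n (a + 1) * (n A * m a) := by rw [ih]
          _ = n A * (n (a + 1) * m a) := by ring
          _ = n A * (n a * m (a + 1)) := by rw [h1]
          _ = n a * (n A * m (a + 1)) := by ring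
      exact Nat.eq_of_mul_eq_mul_left (hn a ha) h2
  -- lifting the exponent for the fixed direction
  set X : ℤ := (2 ^ n A) ^ (p - 1) with hX
  set Y : ℤ := (3 ^ m A) ^ (p - 1) with hY
  have hnA : 0 < n A := hn A le_rfl
  have hnp2 : ¬ (p : ℤ) ∣ 2 := by
    intro h
    have : p ∣ 2 := by exact_mod_cast h
    have := Nat.le_of_dvd (by norm_num) this
    omega
  have hnp3 : ¬ (p : ℤ) ∣ 3 := by
    intro h
    have : p ∣ 3 := by exact_mod_cast h
    have := Nat.le_of_dvd (by norm_num) this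
    omega
  have hpprime : Prime (p : ℤ) := Nat.prime_iff_prime_int.mp hp
  have hne : X - Y ≠ 0 := by
    intro h
    have h1 : X = Y := by linarith
    have hpar : Even X := by
      rw [hX, ← pow_mul]
      refine Even.pow_of_ne_zero (by norm_num) ?_
      exact Nat.mul_ne_zero hnA.ne' (by omega)
    have hparY : Odd Y := by
      rw [hY, ← pow_mul]
      exact Odd.pow (by decide)
    rw [h1] at hpar
    exact (Int.not_even_iff_odd.mpr hparY) hpar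
  have hXp : (p : ℤ) ∣ X - 1 := by
    have : Fact p.Prime := ⟨hp⟩
    rw [← ZMod.intCast_zmod_eq_zero_iff_dvd, hX]
    push_cast
    rw [ZMod.pow_card_sub_one_eq_one, sub_self]
    intro h0
    have : ((2 : ℤ) : ZMod p) = 0 := by
      have h := eq_zero_of_pow_eq_zero h0
      exact_mod_cast h
    exact hnp2 ((ZMod.intCast_zmod_eq_zero_iff_dvd 2 p).mp this)
  have hYp : (p : ℤ) ∣ Y - 1 := by
    have : Fact p.Prime := ⟨hp⟩
    rw [← ZMod.intCast_zmod_eq_zero_iff_dvd, hY]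
    push_cast
    rw [ZMod.pow_card_sub_one_eq_one, sub_self]
    intro h0
    have h00 : ((3 : ZMod p)) = 0 := eq_zero_of_pow_eq_zero h0
    have : ((3 : ℤ) : ZMod p) = 0 := by exact_mod_cast h00
    exact hnp3 ((ZMod.intCast_zmod_eq_zero_iff_dvd 3 p).mp this)
  have hXY : (p : ℤ) ∣ X - Y := by
    have := dvd_sub hXp hYp
    have e : X - 1 - (Y - 1) = X - Y := by ring
    rwa [e] at this
  have hpX : ¬ (p : ℤ) ∣ X := by
    intro h
    rw [hX, ← pow_mul] at h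
    exact hnp2 (hpprime.dvd_of_dvd_pow h)
  obtain ⟨e, he⟩ := exists_not_pow_dvd hp hne
  have hbound : ∀ a ≥ A, (p : ℝ) ^ a ≤ (p : ℝ) ^ e * n a := by
    intro a ha
    have h1 : ((p : ℤ) ^ a) ∣ X ^ n a - Y ^ n a := by
      have h2 : ((p : ℤ) ^ a) ∣ (2 ^ n a) ^ (n A) - (3 ^ m a) ^ (n A) :=
        (hdvd a ha).trans (sub_dvd_pow_sub_pow _ _ _)
      have h3 : ((2 : ℤ) ^ n a) ^ (n A) - (3 ^ m a) ^ (n A) =
          (2 ^ n A) ^ (n a) - (3 ^ m A) ^ (n a) := by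
        rw [← pow_mul, ← pow_mul, ← pow_mul, ← pow_mul, mul_comm (m a), ← hprop a ha,
          mul_comm (n A) (n a), mul_comm (n a) (m A)]
      rw [h3] at h2
      have h4 : X ^ n a - Y ^ n a =
          ((2 ^ n A) ^ (n a)) ^ (p - 1) - ((3 ^ m A) ^ (n a)) ^ (p - 1) := by
        rw [hX, hY, pow_right_comm, pow_right_comm (3 ^ m A)]
      rw [h4]
      exact h2.trans (sub_dvd_pow_sub_pow _ _ _)
    have := lte_bound hp hodd he hXY hpX (hn a ha) h1
    exact_mod_cast this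
  -- contradiction for large `a`
  have hlarge : ∀ a ≥ A, √((p : ℝ) ^ a) < (p : ℝ) ^ e * c := by
    intro a ha
    have h1 := hbound a ha
    have h2 := hlt a ha
    have hss : √((p : ℝ) ^ a) * √((p : ℝ) ^ a) = (p : ℝ) ^ a :=
      Real.mul_self_sqrt (by positivity)
    have hpos : 0 < √((p : ℝ) ^ a) := Real.sqrt_pos.mpr (by positivity)
    have h3 : √((p : ℝ) ^ a) * √((p : ℝ) ^ a) < ((p : ℝ) ^ e * c) * √((p : ℝ) ^ a) := by
      rw [hss]
      calc (p : ℝ) ^ a ≤ (p : ℝ) ^ e * n a := h1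
        _ < (p : ℝ) ^ e * (c * √((p : ℝ) ^ a)) :=
            mul_lt_mul_of_pos_left h2 (by positivity)
        _ = ((p : ℝ) ^ e * c) * √((p : ℝ) ^ a) := by ring
    exact lt_of_mul_lt_mul_right h3 hpos.le
  have hp1 : (1 : ℝ) < p := by exact_mod_cast hp.one_lt
  obtain ⟨a, ha⟩ := pow_unbounded_of_one_lt (((p : ℝ) ^ e * c) ^ 2) hp1
  have h1 := hlarge (max a A) (le_max_right _ _)
  have h2 : (p : ℝ) ^ a ≤ (p : ℝ) ^ (max a A) :=
    pow_le_pow_right₀ hp1.le (le_max_left _ _)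
  have h3 : √((p : ℝ) ^ (max a A)) * √((p : ℝ) ^ (max a A)) = (p : ℝ) ^ (max a A) :=
    Real.mul_self_sqrt (by positivity)
  have h4 : 0 ≤ √((p : ℝ) ^ (max a A)) := Real.sqrt_nonneg _
  nlinarith

/-- The bound for the order of `2` modulo powers of five. -/
lemma ord_five (d a : ℕ) (hd : 0 < d) (h : (((5 : ℕ) : ℤ) ^ a) ∣ 2 ^ d - 1) :
    (((5 : ℕ) : ℝ)) ^ a ≤ (5 / 4 : ℝ) * d := by
  rcases Nat.eq_zero_or_pos a with rfl | ha
  · have : (1 : ℝ) ≤ d := by exact_mod_cast hd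
    simp
    linarith
  · -- `4 ∣ d`
    have h5 : ((5 : ℕ) : ℤ) ∣ 2 ^ d - 1 := (dvd_pow_self _ ha.ne').trans h
    have h4 : d % 4 = 0 := by
      have e : (2 : ℤ) ^ d = 16 ^ (d / 4) * 2 ^ (d % 4) := by
        conv_lhs => rw [← Nat.div_add_mod d 4, pow_add, pow_mul]
        norm_num
      have h16 : (5 : ℤ) ∣ 16 ^ (d / 4) - 1 := by
        have : ((16 : ℤ) - 1) ∣ 16 ^ (d / 4) - 1 ^ (d / 4) := sub_dvd_pow_sub_pow _ _ _
        rw [one_pow] at this
        exact (by norm_num : (5 : ℤ) ∣ 16 - 1).trans this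
      have h6 : (5 : ℤ) ∣ 2 ^ (d % 4) - 1 := by
        have h7 : (2 : ℤ) ^ d - 1 = (16 ^ (d / 4) - 1) * 2 ^ (d % 4) + (2 ^ (d % 4) - 1) := by
          rw [e]; ring
        have h5' : (5 : ℤ) ∣ 2 ^ d - 1 := by exact_mod_cast h5
        rw [h7] at h5'
        exact (dvd_add_right (h16.mul_right _)).mp h5'
      have hlt : d % 4 < 4 := Nat.mod_lt _ (by norm_num)
      interval_cases hm : d % 4
      · rfl
      · norm_num at h6
      · norm_num at h6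
      · norm_num at h6
    obtain ⟨d', rfl⟩ : 4 ∣ d := Nat.dvd_of_mod_eq_zero h4
    have hd' : 0 < d' := by omega
    have h8 : (((5 : ℕ) : ℤ) ^ a) ∣ 16 ^ d' - 1 ^ d' := by
      rw [pow_mul] at h
      norm_num at h ⊢
      exact h
    have h9 := lte_bound (p := 5) (X := 16) (Y := 1) (e := 1) (by norm_num) (by decide)
      (by norm_num) (by norm_num) (by norm_num) hd' h8
    have h10 : ((5 : ℕ) : ℝ) ^ a ≤ 5 ^ 1 * d' := by exact_mod_cast h9
    push_cast at h10 ⊢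
    linarith

/-- The bound for the order of `2` modulo powers of a prime. -/
lemma ord_general {p : ℕ} (hp : p.Prime) (hp5 : 5 ≤ p) :
    ∃ D : ℝ, 0 < D ∧ ∀ d a : ℕ, 0 < d → ((p : ℤ) ^ a) ∣ 2 ^ d - 1 → (p : ℝ) ^ a ≤ D * d := by
  have hodd : Odd p := hp.odd_of_ne_two (by omega)
  have : Fact p.Prime := ⟨hp⟩
  have hnp2 : ¬ (p : ℤ) ∣ 2 := by
    intro h
    have : p ∣ 2 := by exact_mod_cast h
    have := Nat.le_of_dvd (by norm_num) this
    omega
  have hpprime : Prime (p : ℤ) := Nat.prime_iff_prime_int.mp hp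
  have hne : ((2 : ℤ) ^ (p - 1) - 1) ≠ 0 := by
    have : (2 : ℤ) ^ 1 < 2 ^ (p - 1) := pow_lt_pow_right₀ (by norm_num) (by omega)
    intro h
    linarith
  obtain ⟨e, he⟩ := exists_not_pow_dvd hp hne
  have hXp : (p : ℤ) ∣ 2 ^ (p - 1) - 1 := by
    rw [← ZMod.intCast_zmod_eq_zero_iff_dvd]
    push_cast
    rw [ZMod.pow_card_sub_one_eq_one, sub_self]
    intro h0
    have : ((2 : ℤ) : ZMod p) = 0 := by exact_mod_cast h0
    exact hnp2 ((ZMod.intCast_zmod_eq_zero_iff_dvd 2 p).mp this)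
  have hpX : ¬ (p : ℤ) ∣ 2 ^ (p - 1) := fun h => hnp2 (hpprime.dvd_of_dvd_pow h)
  refine ⟨(p : ℝ) ^ e, by have := hp.pos; positivity, ?_⟩
  intro d a hd h
  have h1 : ((p : ℤ) ^ a) ∣ (2 ^ (p - 1)) ^ d - 1 ^ d := by
    have h2 : ((2 : ℤ) ^ d - 1) ∣ (2 ^ d) ^ (p - 1) - 1 ^ (p - 1) := sub_dvd_pow_sub_pow _ _ _
    have h3 : ((2 : ℤ) ^ (p - 1)) ^ d - 1 ^ d = (2 ^ d) ^ (p - 1) - 1 ^ (p - 1) := by
      rw [one_pow, one_pow, ← pow_mul, ← pow_mul, mul_comm]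
    rw [h3]
    exact h.trans h2
  have := lte_bound hp hodd he hXp hpX hd h1
  exact_mod_cast this

/-- **Theorem.** For every prime `p ≥ 5` there is a constant `c > 0` (and `c = 1/2` works for
`p = 5`) such that for infinitely many exponents `a` every primitive integer cycle of `T_k`,
`k = p^a`, has period at least `c √k`. -/
theorem result : ∀ p : ℕ, p.Prime → 5 ≤ p →
    ∃ c : ℝ, 0 < c ∧ (p = 5 → c = 1 / 2) ∧
      ∀ A : ℕ, ∃ a ≥ A, ∀ x : ℤ, Int.gcd x ((p : ℤ) ^ a) = 1 →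
        ∀ n : ℕ, 0 < n → (T ((p : ℤ) ^ a))^[n] x = x → c * √((p : ℝ) ^ a) ≤ n := by
  intro p hp hp5
  have hodd : Odd p := hp.odd_of_ne_two (by omega)
  have hparity : ∀ a : ℕ, ((p : ℤ) ^ a) % 2 = 1 := by
    intro a
    have : Odd ((p : ℤ) ^ a) := Odd.pow (by exact_mod_cast hodd)
    exact Int.odd_iff.mp this
  suffices h : ∃ D c : ℝ, 0 < D ∧ 0 < c ∧ (p = 5 → c = 1 / 2) ∧ D * c ^ 2 * √(p : ℝ) ≤ 1 ∧
      ∀ d a : ℕ, 0 < d → ((p : ℤ) ^ a) ∣ 2 ^ d - 1 → (p : ℝ) ^ a ≤ D * d by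
    obtain ⟨D, c, hD, hc, hc5, hDc, hord⟩ := h
    refine ⟨c, hc, hc5, ?_⟩
    intro A
    obtain ⟨a, ha, hall⟩ := core hp hp5 hD hc hDc hord A
    refine ⟨a, ha, ?_⟩
    intro x hx n hn hit
    obtain ⟨m, hm, hdvd⟩ := cycle_dvd (hparity a) hx hit
    exact hall n m hn hm hdvd
  by_cases h5 : p = 5
  · subst h5
    refine ⟨5 / 4, 1 / 2, by norm_num, by norm_num, fun _ => rfl, ?_, ord_five⟩
    have h1 : √((5 : ℕ) : ℝ) ≤ 3 := by
      rw [Real.sqrt_le_left (by norm_num)]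
      norm_num
    have h2 : (5 / 4 : ℝ) * (1 / 2) ^ 2 * √((5 : ℕ) : ℝ) = 5 / 16 * √((5 : ℕ) : ℝ) := by ring
    rw [h2]
    calc (5 / 16 : ℝ) * √((5 : ℕ) : ℝ) ≤ 5 / 16 * 3 :=
          mul_le_mul_of_nonneg_left h1 (by norm_num)
      _ ≤ 1 := by norm_num
  · obtain ⟨D, hD, hord⟩ := ord_general hp hp5
    have hp0 : (0 : ℝ) < p := by exact_mod_cast hp.pos
    have hs : 0 < √(p : ℝ) := Real.sqrt_pos.mpr hp0
    refine ⟨D, √(1 / (D * √(p : ℝ))), hD, Real.sqrt_pos.mpr (by positivity),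
      fun h => absurd h h5, ?_, hord⟩
    rw [Real.sq_sqrt (by positivity)]
    apply le_of_eq
    field_simp

end Pool.Agent.Results.MP_9c4f7e_nt.NoShortCyclesSqrt
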