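import Pool.Agent.Lib.MP_9c4f7e_nt.Rare.Poly
import Pool.Agent.Lib.MP_9c4f7e_nt_count.Per

/-!
# How many `3x+k` maps have a short primitive cycle?

`count X Y` is the number of the `k ≤ X`, `k ≡ ±1 (mod 6)`, for which `T_k` has a primitive integer
cycle of period at most `Y`.  We bound it from above for all `Y`: by `X^(1-1/A+ε)` for `Y = (log X)^A`,
and by `C X u^(-cu)`, `u = log X / log Y`, for all `log X ≤ Y ≤ X`; so almost all `k` have no primitive
cycle of period `k^o(1)`.  It is at least `exp ((log X)^(1/2-ε))` for `Y = exp ((log X)^ε)`.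

A primitive cycle of period `n` forces `k` to divide some `2^n - 3^m`, `m ≤ n`.
-/

set_option autoImplicit false

open Finset Pool.Agent.Lib.MP_9c4f7e_nt.Rare

namespace Pool.Agent.Results.MP_9c4f7e_nt.ShortCyclesRare

/-- The map `T_k`: `x ↦ (3x+k)/2` for odd `x` and `x ↦ x/2` for even `x`. -/
def T (k : ℤ) (x : ℤ) : ℤ := if x % 2 = 1 then (3 * x + k) / 2 else x / 2

/-- `T_k` has a primitive integer cycle of period at most `Y`. -/
def Short (k : ℕ) (Y : ℝ) : Prop :=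
  ∃ (x : ℤ) (n : ℕ), Int.gcd x k = 1 ∧ 0 < n ∧ (n : ℝ) ≤ Y ∧ (T k)^[n] x = x

open Classical in
/-- The number of the `k ≤ X`, `k ≡ ±1 (mod 6)`, such that `T_k` has a primitive integer cycle of
period at most `Y`. -/
noncomputable def count (X : ℕ) (Y : ℝ) : ℕ :=
  ((Icc 1 X).filter fun k => (k % 6 = 1 ∨ k % 6 = 5) ∧ Short k Y).card

lemma iterate_congr {k : ℤ} (hk : k % 2 = 1) (x : ℤ) (n : ℕ) :
    ∃ m ≤ n, k ∣ 2 ^ n * (T k)^[n] x - 3 ^ m * x := by
  induction n with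
  | zero => exact ⟨0, le_refl _, by simp⟩
  | succ n ih =>
    obtain ⟨m, hm, c, hc⟩ := ih
    rw [Function.iterate_succ_apply']
    set y := (T k)^[n] x with hy
    by_cases h : y % 2 = 1
    · refine ⟨m + 1, by omega, 2 ^ n + 3 * c, ?_⟩
      have h2 : 2 * T k y = 3 * y + k := by
        unfold T
        rw [if_pos h]
        omega
      rw [pow_succ, pow_succ]
      linear_combination 2 ^ n * h2 + 3 * hc
    · refine ⟨m, by omega, c, ?_⟩
      have h2 : 2 * T k y = y := by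
        unfold T
        rw [if_neg h]
        omega
      rw [pow_succ]
      linear_combination 2 ^ n * h2 + hc

/-- A primitive cycle of period `n` forces `k` to divide some `2^n - 3^m`, `m ≤ n`. -/
lemma dv_of_short {k : ℕ} {Y : ℝ} (hk : k % 2 = 1) (h : Short k Y) : Dv k Y := by
  obtain ⟨x, n, hx, hn0, hnY, hn⟩ := h
  have hk' : (k : ℤ) % 2 = 1 := by omega
  obtain ⟨m, hm, hdvd⟩ := iterate_congr hk' x n
  refine ⟨n, m, hn0, hnY, hm, ?_⟩
  rw [hn, ← sub_mul] at hdvd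
  have hco : IsCoprime (k : ℤ) x := by
    rw [Int.isCoprime_iff_gcd_eq_one, Int.gcd_comm]
    exact hx
  have h2 := hco.dvd_of_dvd_mul_right hdvd
  unfold D
  exact Int.natCast_dvd.mp h2

lemma count_le (X : ℕ) (Y : ℝ) : (count X Y : ℝ) ≤ NN X Y := by
  classical
  unfold count NN
  norm_cast
  apply card_le_card
  intro k hk
  rw [mem_filter] at hk ⊢
  exact ⟨hk.1, dv_of_short (by omega) hk.2.2⟩

/-- The lower bound. -/
lemma le_count (ε : ℝ) (hε : 0 < ε) : ∃ X₀ : ℕ, ∀ X : ℕ, X₀ ≤ X →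
    Real.exp ((Real.log X) ^ (1 / 2 - ε)) ≤ count X (Real.exp ((Real.log X) ^ ε)) := by
  classical
  obtain ⟨X₀, h⟩ := PCyc.mainV ε hε
  refine ⟨⌈X₀⌉₊, fun X hX => ?_⟩
  have hX' : X₀ ≤ X := (Nat.le_ceil _).trans (by exact_mod_cast hX)
  obtain ⟨V, hV, h1⟩ := h X hX'
  refine h1.trans ?_
  unfold count
  norm_cast
  rw [← Set.ncard_coe_finset]
  refine Set.ncard_le_ncard ?_ (Finset.finite_toSet _)
  rintro k ⟨hk, h6, x, hx, n, hn0, hnV, hn⟩
  rw [mem_coe, mem_filter, mem_Icc]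
  have hkX : k ≤ X := by exact_mod_cast hk
  have hnV' : (n : ℝ) ≤ V := by exact_mod_cast hnV
  exact ⟨⟨by omega, hkX⟩, h6, x, n, hx, hn0, hnV'.trans hV, hn⟩

/-- **Short primitive cycles are rare.**
(1) For real `A ≥ 1` and `ε > 0`: at most `X^(1-1/A+ε)` of the `k ≤ X` have a primitive integer cycle of
period at most `(log X)^A`, for all large `X`.
(2) There are `C, c > 0` such that `count X Y ≤ C X u^(-cu)`, `u = log X / log Y`, whenever
`max 2 (log X) ≤ Y ≤ X`.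
(3) For `ε > 0`: `count X Y ≥ exp ((log X)^(1/2-ε))` for `Y = exp ((log X)^ε)` and all large `X`. -/
theorem result :
    (∀ A ε : ℝ, 1 ≤ A → 0 < ε → ∃ X₀ : ℕ, ∀ X : ℕ, X₀ ≤ X →
      (count X ((Real.log X) ^ A) : ℝ) ≤ (X : ℝ) ^ (1 - 1 / A + ε)) ∧
    (∃ C c : ℝ, 0 < C ∧ 0 < c ∧ ∀ (X : ℕ) (Y : ℝ), 2 ≤ Y → Real.log X ≤ Y → Y ≤ X →
      (count X Y : ℝ) ≤ C * X *
        (Real.log X / Real.log Y) ^ (-(c * (Real.log X / Real.log Y)))) ∧
    (∀ ε : ℝ, 0 < ε → ∃ X₀ : ℕ, ∀ X : ℕ, X₀ ≤ X →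
      Real.exp ((Real.log X) ^ (1 / 2 - ε)) ≤ (count X (Real.exp ((Real.log X) ^ ε)) : ℝ)) := by
  classical
  refine ⟨fun A ε hA hε => ?_, ?_, le_count⟩
  · obtain ⟨X₀, h⟩ := polylog A ε hA hε
    exact ⟨X₀, fun X hX => (count_le X _).trans (h X hX)⟩
  · obtain ⟨C, hC, h⟩ := unif
    refine ⟨C, 1 / 360, hC, by norm_num, fun X Y hY hXY hYX => ?_⟩
    refine (count_le X Y).trans ((h X Y hY hXY hYX).trans (le_of_eq ?_))
    have hlY : 0 < Real.log Y := Real.log_pos (by linarith)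
    have hlX : 0 < Real.log X := Real.log_pos (by linarith)
    rw [Real.rpow_def_of_pos (by positivity)]
    congr 2
    ring

end Pool.Agent.Results.MP_9c4f7e_nt.ShortCyclesRare
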